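import Pool.Agent.Burn.LC4

/-!
MP_3ab0ed_al, piece P4 (version of row 77).  The class of actions without a bound on the fixed sets
of elliptic elements; the results of `Burn/Cyc` and `Burn/LC4` for this class.
-/

universe u

namespace Burn

/-- The class of actions of row 77. -/
structure Cls (n : ℕ) (δ B q : ℤ) (G : Type u) [Group G] {V : Type u} [MulAction G V]
    (M : IMet V) : Prop where
  inv : M.Inv G
  hyp : M.Hyp δ
  dich : ∀ g : G, g ^ n = 1 ∨ M.Lox q g
  tor : ∀ g h : G, g ≠ 1 → g ^ n = 1 → Commute g h → h ^ n = 1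
  acy : ∀ g h : G, ∀ x y, M.d x (g • x) ≤ 1000 * δ → M.d y (g • y) ≤ 1000 * δ →
    M.d x (h • x) ≤ 1000 * δ → M.d y (h • y) ≤ 1000 * δ → B < M.d x y →
    ∃ z : G, g ∈ Subgroup.zpowers z ∧ h ∈ Subgroup.zpowers z

namespace Cls

open Filter Topology

variable {n : ℕ} {δ B q : ℤ} {G : Type u} [Group G] {V : Type u} [MulAction G V] {M : IMet V}

/-- the class `InClass` is contained in `Cls` (uses `InClass.ell_bound` for `tor`). -/
theorem _root_.Burn.InClass.toCls [Nonempty V] (hn : n ≠ 0) (hδ : 1 ≤ δ) (hq : 1 ≤ q)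
    (H : InClass n δ B q G M) : Cls n δ B q G M := by
  refine ⟨H.inv, H.hyp, ?_, ?_, ?_⟩
  · intro g
    by_cases hg : g = 1
    · left; rw [hg, one_pow]
    · rcases H.c3 g hg with h | h
      · exact Or.inl h.1
      · exact Or.inr h
  · intro g h hg hgn hc
    by_contra hh
    have hl := H.lox_of_pow_ne hh
    obtain ⟨x₀⟩ := (inferInstance : Nonempty V)
    have key : ∀ j : ℕ, 2 * (j : ℤ) ≤ q * (B + 4 * M.d x₀ (g • x₀) + 8 * δ + 2) := by
      intro j
      have e1 := Cyc.far H.inv hl x₀ j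
      have e2 := H.ell_bound hn hδ hg hgn (M.nonneg x₀ (g • x₀))
        (Cyc.disp_comm H.inv hc x₀ (-(j : ℤ))).le (Cyc.disp_comm H.inv hc x₀ (j : ℤ)).le
      exact e1.trans (mul_le_mul_of_nonneg_left e2 (by omega))
    have e := key (q * (B + 4 * M.d x₀ (g • x₀) + 8 * δ + 2) + 1).toNat
    have e1 := key 0
    have e2 : ((q * (B + 4 * M.d x₀ (g • x₀) + 8 * δ + 2) + 1).toNat : ℤ) =
        q * (B + 4 * M.d x₀ (g • x₀) + 8 * δ + 2) + 1 := Int.toNat_of_nonneg (by
          simp only [Nat.cast_zero, mul_zero] at e1; omega)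
    rw [e2] at e
    simp only [Nat.cast_zero, mul_zero] at e1
    omega
  · intro g h x y h1 h2 h3 h4 h5
    by_cases hg : g = 1
    · exact ⟨h, by rw [hg]; exact Subgroup.one_mem _, Subgroup.mem_zpowers h⟩
    by_cases hh : h = 1
    · exact ⟨g, Subgroup.mem_zpowers g, by rw [hh]; exact Subgroup.one_mem _⟩
    exact H.c4 g h hg hh x y h1 h2 h3 h4 h5

theorem lox_iff [Nonempty V] (hn : n ≠ 0) (H : Cls n δ B q G M) {g : G} :
    M.Lox q g ↔ g ^ n ≠ 1 :=
  ⟨fun h => h.pow_ne hn, fun h => (H.dich g).resolve_left h⟩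

/-- copy of `InClass.quasi`; `u ≠ 1` commuting with `g` is loxodromic by `dich` and `tor` -/
theorem quasi [Nonempty V] (hn : n ≠ 0) (hδ : 1 ≤ δ) (hq : 1 ≤ q)
    (H : Cls n δ B q G M) {g : G} (hg : M.Lox q g) :
    ∃ β : G → ℤ, (∀ u v, Commute u g → Commute v g → |β (u * v) - β u - β v| ≤ 4 * δ) ∧
      (∀ u, Commute u g → u ≠ 1 → ∀ k : ℕ, (k : ℤ) ≤ q * (|β (u ^ k)| + 3 * δ)) ∧
      (∀ u v, Commute u g → Commute v g → u ≠ 1 → v ≠ 1 → |β u| ≤ 100 * δ → |β v| ≤ 100 * δ →
        ∃ z : G, u ∈ Subgroup.zpowers z ∧ v ∈ Subgroup.zpowers z) := by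
  classical
  have hi := H.inv
  have hh := H.hyp
  have hδ0 : 0 ≤ δ := by omega
  obtain ⟨x₀⟩ := (inferInstance : Nonempty V)
  set xm : ℕ → V := fun j => g ^ (-(j : ℤ)) • x₀ with hxm
  set xp : ℕ → V := fun j => g ^ (j : ℤ) • x₀ with hxp
  set D : ℕ → ℤ := fun j => M.d (xm j) (xp j) with hD
  have hD2 : ∀ j : ℕ, 2 * (j : ℤ) ≤ q * D j := fun j => Cyc.far hi hg x₀ j
  have hD0 : ∀ j, 0 ≤ D j := fun j => M.nonneg _ _
  -- `D` tends to infinity
  have hlarge : ∀ T : ℤ, ∀ᶠ j in ((hyperfilter ℕ : Ultrafilter ℕ) : Filter ℕ), T ≤ D j := by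
    intro T
    refine Filter.Eventually.filter_mono Nat.hyperfilter_le_atTop ?_
    filter_upwards [eventually_ge_atTop (q * T).toNat] with j hj
    by_contra hcon
    push Not at hcon
    have h1 := hD2 j
    have h2 : q * T ≤ (j : ℤ) := by
      have := Int.self_le_toNat (q * T)
      omega
    have h3 : q * D j ≤ q * (T - 1) := mul_le_mul_of_nonneg_left (by omega) (by omega)
    have h4 : q * (T - 1) = q * T - q := by ring
    omega
  have hz : ∀ j, ∃ z, M.Deep (xm j) (xp j) 0 (D j / 2) z := by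
    intro j
    have := hD0 j
    obtain ⟨z, hz, _⟩ := M.deep_exists (xm j) (xp j) (D j / 2) (D j / 2) le_rfl
      (by show D j / 2 ≤ D j - D j / 2; omega) (by omega)
    exact ⟨z, hz⟩
  choose z hzd using hz
  set R : G → ℤ := fun u => M.d x₀ (u • x₀) with hR
  have hR0 : ∀ u, 0 ≤ R u := fun u => M.nonneg _ _
  have hRm : ∀ u, Commute u g → ∀ j, M.d (xm j) (u • xm j) ≤ R u := fun u hu j =>
    (Cyc.disp_comm hi hu x₀ _).le
  have hRp : ∀ u, Commute u g → ∀ j, M.d (xp j) (u • xp j) ≤ R u := fun u hu j =>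
    (Cyc.disp_comm hi hu x₀ _).le
  have hdeep : ∀ r : ℤ, ∀ᶠ j in ((hyperfilter ℕ : Ultrafilter ℕ) : Filter ℕ),
      M.Deep (xm j) (xp j) 0 r (z j) := by
    intro r
    filter_upwards [hlarge (2 * r)] with j hj
    exact Cyc.deep_mono (hzd j) (by omega)
  have hbdd : ∀ u, Commute u g → ∀ j, |M.sh (xm j) u (z j)| ≤ R u + δ := by
    intro u hu j
    refine (M.abs_sh_le _ _ _).trans ?_
    have h1 := M.disp_btw hh (xm j) (xp j) (z j) (u • xm j) (u • xp j) (u • z j)
      (hi _ _ _) (hi _ _ _)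
    have h2 := (hzd j).1
    have h3 := hRm u hu j
    have h4 := hRp u hu j
    omega
  have hβ : ∀ u : G, ∃ c : ℤ, Commute u g →
      ∀ᶠ j in ((hyperfilter ℕ : Ultrafilter ℕ) : Filter ℕ), M.sh (xm j) u (z j) = c := by
    intro u
    by_cases hu : Commute u g
    · obtain ⟨c, hc⟩ := Cyc.bdd_const (fun j => M.sh (xm j) u (z j)) (R u + δ) (hbdd u hu)
      exact ⟨c, fun _ => hc⟩
    · exact ⟨0, fun h => absurd h hu⟩
  choose β hβ using hβ
  have hlox : ∀ u, Commute u g → u ≠ 1 → M.Lox q u := by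
    intro u hu hu1
    rcases H.dich u with h | h
    · exact absurd (H.tor u g hu1 h hu) (hg.pow_ne hn)
    · exact h
  refine ⟨β, ?_, ?_, ?_⟩
  · intro u v hu hv
    obtain ⟨j, ⟨⟨h1, h2⟩, h3⟩, h4⟩ := (((hβ (u * v) (hu.mul_left hv)).and (hβ u hu)).and
      (hβ v hv) |>.and (hdeep (R u + R v + 0 + 4 * δ + 1))).exists
    have := M.sh_mul hi hh hδ0 (hRm u hu j) (hRm v hv j) (hRp v hv j) h4 le_rfl le_rfl
      (hR0 u) (hR0 v)
    rw [h1, h2, h3] at this
    simpa using this
  · intro u hu hu1 k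
    have huk : Commute (u ^ k) g := hu.pow_left k
    obtain ⟨j, h1, h4⟩ := ((hβ (u ^ k) huk).and (hdeep (R (u ^ k) + 0 + 2 * δ + 1))).exists
    have h5 := M.sh_disp hi hh hδ0 (hRm _ huk j) (hRp _ huk j) h4 le_rfl le_rfl
    rw [h1] at h5
    have h6 := hlox u hu hu1 (z j) k
    refine h6.trans (mul_le_mul_of_nonneg_left ?_ (by omega))
    omega
  · intro u v hu hv hu1 hv1 hbu hbv
    set r : ℤ := R u + R v + 0 + 2 * δ + 1 with hr
    have hr0 : 0 ≤ r := by have := hR0 u; have := hR0 v; omega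
    obtain ⟨j, ⟨⟨h1, h2⟩, h3⟩, h4⟩ := (((hβ u hu).and (hβ v hv)).and
      (hdeep r) |>.and (hlarge (2 * r + |B| + 1))).exists
    have hA := abs_nonneg B
    have hA' := le_abs_self B
    have h5 : M.d (xm j) (xp j) = D j := rfl
    obtain ⟨y, hy, hyt⟩ := M.deep_exists (xm j) (xp j) r r le_rfl (by omega) hr0
    obtain ⟨y', hy', hyt'⟩ := M.deep_exists (xm j) (xp j) r (r + |B| + 1) (by omega) (by omega) hr0
    have key : ∀ w, Commute w g → R w + 0 + 2 * δ + 1 ≤ r → |M.sh (xm j) w (z j)| ≤ 100 * δ →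
        ∀ y, M.Deep (xm j) (xp j) 0 r y → M.d y (w • y) ≤ 1000 * δ := by
      intro w hw hrw hbw y hy
      have e1 := M.sh_close hi hh hδ0 (hRm w hw j) hy h3 hrw le_rfl
      have e2 := M.sh_disp hi hh hδ0 (hRm w hw j) (hRp w hw j) hy hrw le_rfl
      have e3 := abs_le.1 e1
      have e4 := abs_le.1 hbw
      have e5 : |M.sh (xm j) w y| ≤ 102 * δ := abs_le.2 ⟨by omega, by omega⟩
      omega
    have hru : R u + 0 + 2 * δ + 1 ≤ r := by have := hR0 v; omega
    have hrv : R v + 0 + 2 * δ + 1 ≤ r := by have := hR0 u; omega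
    refine H.acy u v y y' (key u hu hru (by rw [h1]; exact hbu) y hy)
      (key u hu hru (by rw [h1]; exact hbu) y' hy') (key v hv hrv (by rw [h2]; exact hbv) y hy)
      (key v hv hrv (by rw [h2]; exact hbv) y' hy') ?_
    have t := M.tri (xm j) y y'
    omega

/-- centralizers of loxodromic elements are cyclic; copy of `InClass.cyc` -/
theorem cyc [Nonempty V] (hn : n ≠ 0) (hδ : 1 ≤ δ) (hq : 1 ≤ q)
    (H : Cls n δ B q G M) {g : G} (hg : M.Lox q g) :
    ∃ w : G, ∀ u : G, Commute u g ↔ u ∈ Subgroup.zpowers w := by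
  obtain ⟨β, h1, h2, h3⟩ := H.quasi hn hδ hq hg
  have hC : ∀ u : G, u ∈ Subgroup.centralizer {g} ↔ Commute u g := by
    intro u
    rw [Subgroup.mem_centralizer_singleton_iff]
    exact Iff.rfl
  obtain ⟨w, hw, hw2⟩ := Cyc.abstract (Subgroup.centralizer {g}) β (4 * δ) (3 * δ) q (by omega) hq
    (fun u hu v hv => h1 u v ((hC u).1 hu) ((hC v).1 hv))
    (fun u hu hu1 k => h2 u ((hC u).1 hu) hu1 k)
    (fun u hu v hv hu1 hv1 hbu hbv => h3 u v ((hC u).1 hu) ((hC v).1 hv) hu1 hv1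
      (by omega) (by omega))
  refine ⟨w, fun u => ⟨fun hu => hw2 u ((hC u).2 hu), ?_⟩⟩
  rintro ⟨k, rfl⟩
  exact ((hC w).1 hw).zpow_left k

/-- copy of `InClass.no_inv` -/
theorem no_inv [Nonempty V] (hn : Odd n) (hδ : 1 ≤ δ) (hq : 1 ≤ q)
    (H : Cls n δ B q G M) {u v : G} (hu : M.Lox q u) : v * u * v⁻¹ ≠ u⁻¹ := by
  intro hinv
  have hn0 : n ≠ 0 := by rintro rfl; exact absurd hn (by decide)
  obtain ⟨w, hw⟩ := cyc hn0 hδ hq H hu
  -- u is a power of w
  obtain ⟨p, hp⟩ := Subgroup.mem_zpowers_iff.mp ((hw u).mp (Commute.refl u))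
  have hwu : Commute w u := (hw w).mpr (Subgroup.mem_zpowers w)
  -- w has infinite order
  have hword : ∀ i : ℤ, w ^ i = 1 → i = 0 := by
    intro i hi
    by_contra hne
    apply hu.zpow_ne hne
    rw [← hp, ← zpow_mul, mul_comm, zpow_mul, hi, one_zpow]
  have huinv : u ≠ u⁻¹ := by
    intro h
    apply hu.pow_ne (j := 2) (by norm_num)
    rw [pow_two]
    nth_rewrite 1 [h]
    exact inv_mul_cancel u
  have hinv' : v⁻¹ * u * v = u⁻¹ := by
    have h1 : v * u⁻¹ * v⁻¹ = u := by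
      have := congrArg (fun t => t⁻¹) hinv
      simpa [mul_assoc] using this
    calc v⁻¹ * u * v = v⁻¹ * (v * u⁻¹ * v⁻¹) * v := by rw [h1]
      _ = u⁻¹ := by group
  have hc1 : Commute (v * w * v⁻¹) u := by
    have h1 : Commute (v * w * v⁻¹) (v * u * v⁻¹) := by
      show (v * w * v⁻¹) * (v * u * v⁻¹) = (v * u * v⁻¹) * (v * w * v⁻¹)
      have := hwu.eq
      calc (v * w * v⁻¹) * (v * u * v⁻¹) = v * (w * u) * v⁻¹ := by group
        _ = v * (u * w) * v⁻¹ := by rw [this]
        _ = _ := by group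
    rw [hinv] at h1
    exact Commute.inv_right_iff.mp h1
  have hc2 : Commute (v⁻¹ * w * v) u := by
    have h1 : Commute (v⁻¹ * w * v) (v⁻¹ * u * v) := by
      show (v⁻¹ * w * v) * (v⁻¹ * u * v) = (v⁻¹ * u * v) * (v⁻¹ * w * v)
      have := hwu.eq
      calc (v⁻¹ * w * v) * (v⁻¹ * u * v) = v⁻¹ * (w * u) * v := by group
        _ = v⁻¹ * (u * w) * v := by rw [this]
        _ = _ := by group
    rw [hinv'] at h1
    exact Commute.inv_right_iff.mp h1
  obtain ⟨a, ha⟩ := Subgroup.mem_zpowers_iff.mp ((hw _).mp hc1)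
  obtain ⟨b, hb⟩ := Subgroup.mem_zpowers_iff.mp ((hw _).mp hc2)
  have hab : a * b = 1 := by
    have h1 : w = w ^ (a * b) := by
      calc w = v * (v⁻¹ * w * v) * v⁻¹ := by group
        _ = v * w ^ b * v⁻¹ := by rw [hb]
        _ = (v * w * v⁻¹) ^ b := lc4_conj_zpow v w b
        _ = (w ^ a) ^ b := by rw [ha]
        _ = w ^ (a * b) := (zpow_mul w a b).symm
    have h2 : w ^ (a * b - 1) = 1 := by
      rw [zpow_sub, zpow_one, ← h1]; exact mul_inv_cancel w
    have := hword _ h2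
    omega
  rcases Int.eq_one_or_neg_one_of_mul_eq_one hab with h1 | h1
  · -- v commutes with w
    rw [h1, zpow_one] at ha
    apply huinv
    calc u = w ^ p := hp.symm
      _ = (v * w * v⁻¹) ^ p := by rw [← ha]
      _ = v * w ^ p * v⁻¹ := (lc4_conj_zpow v w p).symm
      _ = v * u * v⁻¹ := by rw [hp]
      _ = u⁻¹ := hinv
  · rw [h1, zpow_neg_one] at ha
    -- v^2 commutes with w
    have hv2 : Commute (v * v) u := by
      show (v * v) * u = u * (v * v)
      have e1 : v * u = u⁻¹ * v := by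
        calc v * u = (v * u * v⁻¹) * v := by group
          _ = u⁻¹ * v := by rw [hinv]
      have e2 : v * u⁻¹ = u * v := by
        have e3 : v * u⁻¹ * v⁻¹ = u := by
          have := congrArg (fun t => t⁻¹) hinv
          simpa [mul_assoc] using this
        calc v * u⁻¹ = (v * u⁻¹ * v⁻¹) * v := by group
          _ = u * v := by rw [e3]
      calc (v * v) * u = v * (v * u) := by group
        _ = v * (u⁻¹ * v) := by rw [e1]
        _ = (v * u⁻¹) * v := by group
        _ = (u * v) * v := by rw [e2]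
        _ = u * (v * v) := by group
    obtain ⟨i, hi⟩ := Subgroup.mem_zpowers_iff.mp ((hw _).mp hv2)
    have hi0 : i = 0 := by
      have e1 : w ^ i = w ^ (-i) := by
        calc w ^ i = v * v := hi
          _ = v * (v * v) * v⁻¹ := by group
          _ = v * w ^ i * v⁻¹ := by rw [hi]
          _ = (v * w * v⁻¹) ^ i := lc4_conj_zpow v w i
          _ = (w⁻¹) ^ i := by rw [← ha]
          _ = w ^ (-i) := by rw [inv_zpow, zpow_neg]
      have e2 : w ^ (i + i) = 1 := by
        rw [zpow_add]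
        nth_rewrite 1 [e1]
        rw [← zpow_add]; simp
      have := hword _ e2
      omega
    have hvv : v * v = 1 := by rw [← hi, hi0, zpow_zero]
    have hv1 : v ≠ 1 := by
      rintro rfl
      apply huinv
      simpa using hinv
    rcases H.dich v with h2 | h2
    · obtain ⟨k, hk⟩ := hn
      have h3 := h2
      rw [hk, pow_succ, pow_mul, pow_two, hvv, one_pow, one_mul] at h3
      exact hv1 h3
    · exact h2.pow_ne (j := 2) (by norm_num) (by rw [pow_two]; exact hvv)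

/-- copy of `InClass.commute_of_conj` -/
theorem commute_of_conj [Nonempty V] (hn : Odd n) (hδ : 1 ≤ δ) (hq : 1 ≤ q)
    (H : Cls n δ B q G M) {u v z : G} (hu : M.Lox q u) (h1 : u ∈ Subgroup.zpowers z)
    (h2 : v * u * v⁻¹ ∈ Subgroup.zpowers z) : Commute v u := by
  obtain ⟨p, hp⟩ := Subgroup.mem_zpowers_iff.mp h1
  obtain ⟨r, hr⟩ := Subgroup.mem_zpowers_iff.mp h2
  rcases conj_power H.inv hu hp.symm hr.symm with h | h
  · have h3 : v * u * v⁻¹ = u := by rw [← hr, ← h, hp]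
    show v * u = u * v
    calc v * u = (v * u * v⁻¹) * v := by group
      _ = u * v := by rw [h3]
  · exfalso
    apply no_inv hn hδ hq H hu (v := v)
    rw [← hr, ← hp, h, zpow_neg, inv_inv]

/-- General acylindricity when `g` has infinite order (`n` an odd prime). -/
theorem lc4_aux [Nonempty V] (hp : n.Prime) (hn : Odd n) (hδ : 1 ≤ δ) (hq : 1 ≤ q) (hB : 0 ≤ B)
    (H : Cls n δ B q G M) {g h : G} {R : ℤ} (hgn : g ^ n ≠ 1)
    (hR : 1000 * δ ≤ R) {x y : V} (hgx : M.d x (g • x) ≤ R) (hgy : M.d y (g • y) ≤ R)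
    (hhx : M.d x (h • x) ≤ R) (hhy : M.d y (h • y) ≤ R) (hxy : B + 20 * R < M.d x y) :
    ∃ z : G, g ∈ Subgroup.zpowers z ∧ h ∈ Subgroup.zpowers z := by
  have hn0 : n ≠ 0 := hp.ne_zero
  have hi := H.inv
  have hyp := H.hyp
  have hδ0 : 0 ≤ δ := by omega
  have hR0 : 0 ≤ R := by omega
  have hgl : M.Lox q g := (H.dich g).resolve_left hgn
  by_cases hc : Commute g h
  · obtain ⟨w, hw⟩ := cyc hn0 hδ hq H hgl
    exact ⟨w, (hw g).mp (Commute.refl g), (hw h).mp hc.symm⟩
  · -- the commutator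
    obtain ⟨u, hudef⟩ : ∃ u : G, u = g * h * g⁻¹ * h⁻¹ := ⟨_, rfl⟩
    have hu1 : u ≠ 1 := by
      intro h1
      apply hc
      show g * h = h * g
      rw [hudef] at h1
      calc g * h = (g * h * g⁻¹ * h⁻¹) * (h * g) := by group
        _ = h * g := by rw [h1, one_mul]
    -- displacement of u
    have hdu : ∀ t : V, M.d t (g • t) ≤ R → M.d t (h • t) ≤ R → M.d t (u • t) ≤ 4 * R := by
      intro t h1 h2
      have e1 := lc4_disp_mul hi g h t h1 h2
      have e2 := lc4_disp_mul hi (g * h) g⁻¹ t e1 (lc4_disp_inv hi g t h1)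
      have e3 := lc4_disp_mul hi (g * h * g⁻¹) h⁻¹ t e2 (lc4_disp_inv hi h t h2)
      rw [hudef]; omega
    have hux := hdu x hgx hhx
    have huy := hdu y hgy hhy
    -- deep points
    have hshu : ∀ z, M.Deep x y 0 (8 * R) z → |M.sh x u z| ≤ 12 * δ := by
      intro z hz
      have e1 := M.sh_mul (g := g) (k := h) hi hyp hδ0 hgx hhx hhy hz (by omega) le_rfl hR0 hR0
      have e2 := M.sh_mul (g := h) (k := g) hi hyp hδ0 hhx hgx hgy hz (by omega) le_rfl hR0 hR0
      have e3 := M.sh_mul (g := u) (k := h * g) (Rg := 4 * R) (Rk := R + R) hi hyp hδ0 hux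
        (lc4_disp_mul hi h g x hhx hgx) (lc4_disp_mul hi h g y hhy hgy) hz (by omega) le_rfl
        (by omega) (by omega)
      have e4 : u * (h * g) = g * h := by rw [hudef]; group
      rw [e4] at e3
      rw [abs_le] at e1 e2 e3 ⊢
      omega
    have hconj : ∀ k : G, M.d x (k • x) ≤ R → M.d y (k • y) ≤ R → ∀ z, M.Deep x y 0 (8 * R) z →
        M.d z ((k * u * k⁻¹) • z) ≤ 1000 * δ := by
      intro k hkx hky z hz
      have hd : ∀ t : V, M.d t (k • t) ≤ R → M.d t (u • t) ≤ 4 * R →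
          M.d t ((k * u * k⁻¹) • t) ≤ 6 * R := by
        intro t h1 h2
        have e1 := lc4_disp_mul hi k u t h1 h2
        have e2 := lc4_disp_mul hi (k * u) k⁻¹ t e1 (lc4_disp_inv hi k t h1)
        omega
      have e0 := hshu z hz
      have e1 := M.sh_mul (g := k) (k := u) hi hyp hδ0 hkx hux huy hz (by omega) le_rfl hR0
        (by omega)
      have e2 := M.sh_mul (g := k * u * k⁻¹) (k := k) hi hyp hδ0 (hd x hkx hux) hkx hky hz
        (by omega) le_rfl (by omega) hR0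
      have e4 : k * u * k⁻¹ * k = k * u := by group
      rw [e4] at e2
      have e5 := M.sh_disp (g := k * u * k⁻¹) hi hyp hδ0 (hd x hkx hux) (hd y hky huy) hz
        (by omega) le_rfl
      have e6 : |M.sh x (k * u * k⁻¹) z| ≤ 20 * δ := by
        rw [abs_le] at e0 e1 e2 ⊢
        omega
      omega
    have hudisp : ∀ z, M.Deep x y 0 (8 * R) z → M.d z (u • z) ≤ 1000 * δ := by
      intro z hz
      have e0 := hshu z hz
      have e5 := M.sh_disp (g := u) hi hyp hδ0 hux huy hz (by omega) le_rfl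
      omega
    obtain ⟨z, hz, hzt⟩ := M.deep_exists x y (8 * R) (8 * R) le_rfl (by omega) (by omega)
    obtain ⟨z', hz', hzt'⟩ := M.deep_exists x y (8 * R) (M.d x y - 8 * R) (by omega) le_rfl
      (by omega)
    have hzz : B < M.d z z' := by
      have := M.tri x z z'
      omega
    rcases H.dich u with hun | hul
    · -- the commutator is torsion
      exfalso
      obtain ⟨t, ht1, ht2⟩ := H.acy u (g * u * g⁻¹) z z' (hudisp z hz) (hudisp z' hz')
        (hconj g hgx hgy z hz) (hconj g hgx hgy z' hz') hzz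
      obtain ⟨a, ha⟩ := Subgroup.mem_zpowers_iff.mp ht1
      have ha0 : a ≠ 0 := by
        rintro rfl
        exact hu1 (by rw [← ha, zpow_zero])
      have htn : t ^ n = 1 := by
        rcases H.dich t with h1 | h1
        · exact h1
        · exfalso
          apply h1.zpow_ne (j := a * n) (mul_ne_zero ha0 (by exact_mod_cast hn0))
          rw [zpow_mul, ha, zpow_natCast, hun]
      have hto : orderOf t = n := by
        rcases (Nat.dvd_prime hp).1 (orderOf_dvd_of_pow_eq_one htn) with h1 | h1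
        · exfalso
          rw [orderOf_eq_one_iff] at h1
          exact hu1 (by rw [← ha, h1, one_zpow])
        · exact h1
      have huo : orderOf u = n := by
        rcases (Nat.dvd_prime hp).1 (orderOf_dvd_of_pow_eq_one hun) with h1 | h1
        · exact absurd (orderOf_eq_one_iff.1 h1) hu1
        · exact h1
      have hfin : Finite (Subgroup.zpowers t) := by
        have : IsOfFinOrder t := isOfFinOrder_iff_pow_eq_one.2 ⟨n, hp.pos, htn⟩
        exact this.finite_zpowers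
      have heq : Subgroup.zpowers u = Subgroup.zpowers t := by
        apply Subgroup.eq_of_le_of_card_ge (Subgroup.zpowers_le.2 ht1)
        rw [Nat.card_zpowers, Nat.card_zpowers, huo, hto]
      rw [← heq] at ht2
      obtain ⟨i, hi2⟩ := Subgroup.mem_zpowers_iff.mp ht2
      have hpw : ∀ k : ℕ, g ^ k * u * (g ^ k)⁻¹ = u ^ (i ^ k) := by
        intro k
        induction k with
        | zero => simp
        | succ k ih =>
          have e1 : g ^ (k + 1) * u * (g ^ (k + 1))⁻¹ = g * (g ^ k * u * (g ^ k)⁻¹) * g⁻¹ := by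
            rw [pow_succ']; group
          rw [e1, ih, lc4_conj_zpow, ← hi2, ← zpow_mul, pow_succ']
      have hcop : IsCoprime i (n : ℤ) := by
        rw [Int.isCoprime_iff_gcd_eq_one, Int.gcd_comm]
        have h2 : ¬ ((n : ℤ) ∣ i) := by
          rintro ⟨c, hc'⟩
          apply hu1
          have e1 : g * u * g⁻¹ = 1 := by
            rw [← hi2, hc', zpow_mul, zpow_natCast, hun, one_zpow]
          calc u = g⁻¹ * (g * u * g⁻¹) * g := by group
            _ = 1 := by rw [e1]; group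
        have h3 : ¬ (n ∣ i.natAbs) := fun h4 => h2 (Int.natCast_dvd.2 h4)
        have h4 := (Nat.Prime.coprime_iff_not_dvd hp).2 h3
        rw [Int.gcd_eq_natAbs, Int.natAbs_natCast]
        exact h4
      have hferm := Int.ModEq.pow_card_sub_one_eq_one hp hcop
      have hfix : u ^ (i ^ (n - 1)) = u := by
        have e1 : u ^ (i ^ (n - 1)) = u ^ (1 : ℤ) := by
          rw [zpow_eq_zpow_iff_modEq, huo]
          exact hferm
        rw [e1, zpow_one]
      have hcm : Commute u (g ^ (n - 1)) := by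
        have e1 := hpw (n - 1)
        rw [hfix] at e1
        show u * g ^ (n - 1) = g ^ (n - 1) * u
        calc u * g ^ (n - 1) = (g ^ (n - 1) * u * (g ^ (n - 1))⁻¹) * g ^ (n - 1) := by rw [e1]
          _ = g ^ (n - 1) * u := by group
      have h7 := H.tor u (g ^ (n - 1)) hu1 hun hcm
      rw [← pow_mul] at h7
      have hn2 : n - 1 ≠ 0 := by have := hp.two_le; omega
      exact hgl.pow_ne (mul_ne_zero hn2 hn0) h7
    · have hcomm : ∀ k : G, M.d x (k • x) ≤ R → M.d y (k • y) ≤ R → Commute k u := by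
        intro k hkx hky
        obtain ⟨t, ht1, ht2⟩ := H.acy u (k * u * k⁻¹) z z' (hudisp z hz) (hudisp z' hz')
          (hconj k hkx hky z hz) (hconj k hkx hky z' hz') hzz
        exact commute_of_conj hn hδ hq H hul ht1 ht2
      obtain ⟨w, hw⟩ := cyc hn0 hδ hq H hul
      exact ⟨w, (hw g).mp (hcomm g hgx hgy), (hw h).mp (hcomm h hhx hhy)⟩

/-- elements of finite order move deep points by at most `15 δ` -/
theorem tor_deep (hn : n ≠ 0) (hi : M.Inv G) (hyp : M.Hyp δ) (hδ : 1 ≤ δ) {g : G}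
    (hgn : g ^ n = 1) {x y z : V} {r R : ℤ} (hx : M.d x (g • x) ≤ R) (hy : M.d y (g • y) ≤ R)
    (hz : M.Deep x y 0 r z) (hr : 2 * R + 4 * δ + 1 ≤ r) (hR : 0 ≤ R) :
    M.d z (g • z) ≤ 15 * δ := by
  have h1 : |M.sh x g z| < 12 * δ := by
    by_contra h1
    push Not at h1
    have h2 := M.deep_infinite hi hyp hδ hx hy hz hr hR h1 n
    rw [hgn, one_smul, M.self] at h2
    have h3 : (1 : ℤ) ≤ n := by exact_mod_cast Nat.one_le_iff_ne_zero.mpr hn
    omega
  have h2 := M.sh_disp hi hyp (by omega) hx hy hz (by omega) le_rfl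
  omega

/-- General acylindricity, `n` an odd prime. -/
theorem lc4 [Nonempty V] (hp : n.Prime) (hn : Odd n) (hδ : 1 ≤ δ) (hq : 1 ≤ q) (hB : 0 ≤ B)
    (H : Cls n δ B q G M) {g h : G} {R : ℤ}
    (hR : 1000 * δ ≤ R) {x y : V} (hgx : M.d x (g • x) ≤ R) (hgy : M.d y (g • y) ≤ R)
    (hhx : M.d x (h • x) ≤ R) (hhy : M.d y (h • y) ≤ R) (hxy : B + 20 * R < M.d x y) :
    ∃ z : G, g ∈ Subgroup.zpowers z ∧ h ∈ Subgroup.zpowers z := by
  by_cases hgn : g ^ n = 1
  · by_cases hhn : h ^ n = 1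
    · have hn0 : n ≠ 0 := hp.ne_zero
      obtain ⟨z, hz, hzt⟩ := M.deep_exists x y (8 * R) (8 * R) le_rfl (by omega) (by omega)
      obtain ⟨z', hz', hzt'⟩ := M.deep_exists x y (8 * R) (M.d x y - 8 * R) (by omega) le_rfl
        (by omega)
      have hzz : B < M.d z z' := by
        have := M.tri x z z'
        omega
      have h1 := tor_deep hn0 H.inv H.hyp hδ hgn hgx hgy hz (by omega) (by omega)
      have h2 := tor_deep hn0 H.inv H.hyp hδ hgn hgx hgy hz' (by omega) (by omega)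
      have h3 := tor_deep hn0 H.inv H.hyp hδ hhn hhx hhy hz (by omega) (by omega)
      have h4 := tor_deep hn0 H.inv H.hyp hδ hhn hhx hhy hz' (by omega) (by omega)
      exact H.acy g h z z' (by omega) (by omega) (by omega) (by omega) hzz
    · obtain ⟨z, h1, h2⟩ := lc4_aux hp hn hδ hq hB H hhn hR hhx hhy hgx hgy hxy
      exact ⟨z, h2, h1⟩
  · exact lc4_aux hp hn hδ hq hB H hgn hR hgx hgy hhx hhy hxy

/-- A loxodromic `g` is contained in the cyclic group generated by a primitive `w`. -/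
theorem prim [Nonempty V] (hn : Odd n) (hδ : 1 ≤ δ) (hq : 1 ≤ q)
    (H : Cls n δ B q G M) {g : G} (hg : M.Lox q g) :
    ∃ w : G, M.Lox q w ∧ (∀ u : G, Commute u w ↔ u ∈ Subgroup.zpowers w) ∧
      g ∈ Subgroup.zpowers w ∧ ∀ v : G, v * w * v⁻¹ ≠ w⁻¹ := by
  have hn0 : n ≠ 0 := by rintro rfl; exact absurd hn (by decide)
  obtain ⟨w, hw⟩ := cyc hn0 hδ hq H hg
  have hgw : g ∈ Subgroup.zpowers w := (hw g).mp (Commute.refl g)
  obtain ⟨a, ha⟩ := Subgroup.mem_zpowers_iff.mp hgw
  have hwl : M.Lox q w := by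
    rcases H.dich w with h1 | h1
    · exfalso
      apply hg.pow_ne hn0
      rw [← ha, ← zpow_natCast, ← zpow_mul, mul_comm, zpow_mul, zpow_natCast, h1, one_zpow]
    · exact h1
  refine ⟨w, hwl, fun u => ⟨fun hu => ?_, ?_⟩, hgw, fun v => no_inv hn hδ hq H hwl⟩
  · rw [← hw u, ← ha]
    exact hu.zpow_right a
  · rintro ⟨k, rfl⟩
    exact (Commute.refl w).zpow_left k

/-- (SHORT) PROOF: otherwise `lox` with `ℓ = 5δ + 1`: `d x (w ^ j • x) ≥ j (2δ + 1)` for all `j`;
`g = w ^ a`, `a ≠ 0`, `j = m |a|`: contradiction. -/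
theorem short [Nonempty V] (hn : n ≠ 0) (hδ : 1 ≤ δ) (H : Cls n δ B q G M) {g w : G}
    (hg : M.Lox q g) (hgw : g ∈ Subgroup.zpowers w) {m : ℕ} (hm : 1 ≤ m) {x : V}
    (hx : M.d x (g ^ m • x) ≤ m) : ∃ z, M.d z (w • z) ≤ 5 * δ := by
  by_contra hcon
  push Not at hcon
  obtain ⟨a, ha⟩ := Subgroup.mem_zpowers_iff.mp hgw
  have ha0 : a ≠ 0 := by
    rintro rfl
    apply hg.pow_ne hn
    rw [← ha, zpow_zero, one_pow]
  have e1 := M.lox H.inv H.hyp hδ w (5 * δ + 1) (by omega) (fun z => hcon z) x (a * m).natAbs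
  rw [← M.disp_zpow H.inv, zpow_mul, ha, zpow_natCast, Int.natAbs_mul, Int.natAbs_natCast] at e1
  have h3 : 1 ≤ a.natAbs := by omega
  have h4 : m ≤ a.natAbs * m := by nlinarith
  have h5 : (m : ℤ) ≤ ((a.natAbs * m : ℕ) : ℤ) := by exact_mod_cast h4
  have h6 : (1 : ℤ) ≤ m := by exact_mod_cast hm
  nlinarith

end Cls

end Burn
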