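import Mathlib

/-!
MP_3ab0ed_al, P4 (row 77): the choice of the constants.
-/

namespace Burn

/-- The constants, for an arbitrary `δ` (`= Cone.dX`) and depth `D` (`= Cone.depth`). -/
theorem exists_consts (δ D : ℕ) :
    ∃ B N q R1 R T p0 : ℕ, 20000 * δ + 20 ≤ B ∧ 1 ≤ q ∧
      40 * δ + 3 + B + 20000 * δ ≤ N ∧ D ≤ R ∧
      1000 * δ + 1 + 20 * (1000 * δ * 2 ^ (1000 * δ)) ≤ B ∧
      2 * ((12 * δ + 11) * 2 ^ R) ≤ T ∧ 5 * ((12 * δ + 11) * 2 ^ R) ≤ T ∧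
      1000 * δ < R1 ∧ 2 * R1 + 1000 * δ + 2 * δ < 2 * R + 2 ∧
      q * (200 * δ) + 15 * δ ≤ 2 * R1 ∧
      N * (15 * δ * 2 ^ (200 * δ + 15 * δ)) ≤ q ∧
      T * (q * N) ≤ p0 ∧ 2 * (q * N * (δ * 2 ^ (2 * δ + 1))) + 3 ≤ p0 := by
  generalize 1000 * δ * 2 ^ (1000 * δ) = E
  generalize 15 * δ * 2 ^ (200 * δ + 15 * δ) = E2
  generalize δ * 2 ^ (2 * δ + 1) = E3
  obtain ⟨B, hB⟩ : ∃ B, B = 1000 * δ + 1 + 20 * E + 20000 * δ + 20 := ⟨_, rfl⟩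
  obtain ⟨N, hN⟩ : ∃ N, N = 40 * δ + 3 + B + 20000 * δ := ⟨_, rfl⟩
  obtain ⟨q, hq⟩ : ∃ q, q = N * E2 + 1 := ⟨_, rfl⟩
  obtain ⟨R1, hR1⟩ : ∃ R1, R1 = q * (200 * δ) + 15 * δ + 1000 * δ + 1 := ⟨_, rfl⟩
  obtain ⟨R, hR⟩ : ∃ R, R = R1 + 2000 * δ + D := ⟨_, rfl⟩
  obtain ⟨T, hT⟩ : ∃ T, T = 5 * ((12 * δ + 11) * 2 ^ R) := ⟨_, rfl⟩
  exact ⟨B, N, q, R1, R, T, T * (q * N) + (2 * (q * N * E3) + 3), by omega, by omega, by omega,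
    by omega, by omega, by omega, by omega, by omega, by omega, by omega, by omega,
    by omega, by omega⟩

end Burn
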