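import Pool.Agent.W_MP_3ab0ed_h82.StepRf
import Pool.Agent.W_MP_3ab0ed_h82.Consts
import Pool.Agent.W_MP_3ab0ed_h30.InitIso

/-!
MP_3ab0ed_al: the one-step theorem for all large primes, with universal constants.
-/

namespace Burn

/-- **The one-step theorem.** -/
theorem oneStep_all : ∃ p0 B q : ℕ, 20000 * Cone.dX + 20 ≤ B ∧ 1 ≤ q ∧
    ∀ p : ℕ, p.Prime → p0 ≤ p → p ≠ 2 ∧
      ∀ (G V : Type) [Group G] [MulAction G V] (M : IMet V), CC p B q G V M →
        StepOut p (CC p B q) G V M := by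
  obtain ⟨B, N, q, R1, R, T, p0, h1, h2, h3, h4, h5, h6, h7, h8, h9, h10, h11, h12, h13⟩ :=
    exists_consts Cone.dX Cone.depth
  refine ⟨p0, B, q, h1, h2, ?_⟩
  intro p hp hpp
  have hodd : p ≠ 2 := by omega
  refine ⟨hodd, ?_⟩
  intro G V _ _ M hC
  obtain ⟨hne, hCls⟩ := hC
  have hoddp : Odd p := hp.odd_of_ne_two hodd
  have H : Up p Cone.dX B q G V M := Up.of_cls hp hoddp Cone.one_le_dX h2 hCls
  exact H.stepOut h3 h4 (h12.trans hpp) h6
    (H.stepHyp hCls hp hoddp h3 h4 (h12.trans hpp) h6 h7 h8 h9 h10 h11 h5 (h13.trans hpp))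

/-- **The answer.** -/
theorem answer : W3ab0ed.Laws.Answer := by
  obtain ⟨p0, B, q, h1, h2, h3⟩ := oneStep_all
  obtain ⟨p, hpp, hp⟩ := Nat.exists_infinite_primes p0
  haveI : Fact p.Prime := ⟨hp⟩
  obtain ⟨h4, h5⟩ := h3 p hp hpp
  exact answer_of_cc h4 h1 h2 h5

end Burn
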