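import Pool.Agent.W_MP_3ab0ed_h82.Cls
import Pool.Agent.W_MP_3ab0ed_burn.P3Quot
import Pool.Agent.W_MP_3ab0ed_h44.Adapter

/-!
MP_3ab0ed_al, piece P4 (row 77).  The interface between the cone-off and the quotient.
-/

namespace Burn

open RotFam

/-- Interface between the cone-off (with its rotation family `F`) and the quotient by `KA F`. -/
structure StepHyp {G Z Γ : Type} [Group G] [MulAction G Z] [MulAction G Γ] {ρ : Z → Z → ℕ}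
    {δ S Th T : ℕ} (F : RotFam G Z Γ ρ δ S Th T) (n m0 R1 B : ℕ) : Prop where
  prime : n.Prime
  odd : Odd n
  m0pos : 1 ≤ m0
  num1 : 2 * R1 + 1000 * δ + 2 * δ < S
  num2 : m0 * (200 * δ) + 15 * δ ≤ 2 * R1
  num3 : 1000 * δ < R1
  num4 : 5 * Th ≤ T
  /-- for the dichotomy: two small displacements -/
  A1 : ∀ (z : Z) (g : G), z ∉ F.V → ρ z (g • z) ≤ 200 * δ → ρ z (g ^ m0 • z) ≤ 15 * δ →
    g ^ n = 1 ∨ ∃ c ∈ F.V, g • c = c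
  /-- for the acylindricity -/
  A2 : ∀ (x y : Z) (g h : G), x ∉ F.V → y ∉ F.V → ρ x (g • x) ≤ 1000 * δ →
    ρ y (g • y) ≤ 1000 * δ → ρ x (h • x) ≤ 1000 * δ → ρ y (h • y) ≤ 1000 * δ → B < ρ x y →
    ∃ u : G, g ∈ Subgroup.zpowers u ∧ h ∈ Subgroup.zpowers u
  /-- for the stabilizers of two apices -/
  A3 : ∀ c ∈ F.V, ∀ c' ∈ F.V, c ≠ c' → ∀ g : G, g • c = c → g ∉ KA F →
    ∃ (m : ℕ) (w : Z), ρ c w + ρ w c' = ρ c c' ∧ ∀ k ∈ KA F, δ < ρ w (k • g ^ m • w)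
  /-- stabilizers of apices -/
  A4 : ∀ c ∈ F.V, ∃ a : G, (∀ g : G, g • c = c ↔ g ∈ Subgroup.zpowers a) ∧ a ^ n ∈ KA F
  /-- the group -/
  dich : ∀ g : G, g ^ n = 1 ∨ ∀ j : ℕ, j ≠ 0 → g ^ j ≠ 1
  tor : ∀ g h : G, g ≠ 1 → g ^ n = 1 → Commute g h → h ^ n = 1
  cyc : ∀ g : G, g ^ n ≠ 1 → ∃ w : G, ∀ u : G, Commute u g ↔ u ∈ Subgroup.zpowers w

end Burn
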