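import Pool.Agent.W_MP_3ab0ed_h82.Cls
import Pool.Agent.W_MP_3ab0ed_h44.TGlob

/-!
MP_3ab0ed_al, piece P4 (row 77), section 4.1.
-/

namespace Burn

section TG

/-- 4.1 GLOBAL.  PROOF: row 77, section 4.1 (`f = g ^ m0`). -/
theorem tglob {V : Type} {M : IMet V} {G : Type} [Group G] [MulAction G V] {δ : ℤ} (hδ : 1 ≤ δ)
    (hi : M.Inv G) (h : M.Hyp δ) [Nonempty V] (g : G) (m0 : ℕ) (hm : 1 ≤ m0) :
    M.Lox m0 g ∨ ∃ z, M.d z (g • z) ≤ 200 * δ ∧ M.d z (g ^ m0 • z) ≤ 15 * δ :=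
  M.glob hi h hδ g m0 hm (200 * δ) (by omega)

end TG

end Burn
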