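import Pool.Agent.W_MP_3ab0ed_h82.PowMem
import Pool.Agent.W_MP_3ab0ed_h82.TGlob

/-!
MP_3ab0ed_al, P4 (row 77), sections 4.2 and (T).
-/

namespace Burn

open RotFam

namespace StepHyp

variable {G Z Γ : Type} [Group G] [MulAction G Z] [MulAction G Γ] {ρ : Z → Z → ℕ}
  {δ S Th T : ℕ} {F : RotFam G Z Γ ρ δ S Th T} {n m0 R1 B : ℕ}

theorem disp_pow (F : RotFam G Z Γ ρ δ S Th T) (g : G) (z : Z) (m : ℕ) :
    ρ z (g ^ m • z) ≤ m * ρ z (g • z) := by
  induction m with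
  | zero => rw [pow_zero, one_smul, F.geo.self]; omega
  | succ m ih =>
    have t := F.geo.tri z (g ^ m • z) (g ^ (m + 1) • z)
    have e : ρ (g ^ m • z) (g ^ (m + 1) • z) = ρ z (g • z) := by
      rw [pow_succ, mul_smul, F.inv]
    rw [Nat.succ_mul]
    omega

/-- 4.2 LOCAL. -/
theorem tloc (H : StepHyp F n m0 R1 B) {z : Z} {g k : G} (hz : ρ z (g • z) ≤ 200 * δ)
    (hk : k ∈ KA F) (h : ρ z (k • g ^ m0 • z) ≤ 15 * δ) : g ^ n ∈ KA F := by
  have hn1 := H.num1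
  have hn2 := H.num2
  by_cases hA : ∃ c ∈ F.V, od F z c ≤ R1
  · obtain ⟨c, hc, hzc⟩ := hA
    obtain ⟨k', hk', hfix⟩ := near_apex hc hzc (g := g) (b := 200 * δ) ((od_le' _ _).trans hz)
      (by omega)
    exact H.pow_mem hc hk' hfix
  · push Not at hA
    have hfar : ∀ c ∈ F.V, R1 < ρ (g ^ m0 • z) c := by
      intro c hc
      have h1 := hA _ (F.V_smul (g ^ m0)⁻¹ c hc)
      have h2 := od_le' (F := F) z ((g ^ m0)⁻¹ • c)
      have h3 : ρ z ((g ^ m0)⁻¹ • c) = ρ (g ^ m0 • z) c := by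
        rw [← F.inv (g ^ m0), smul_inv_smul]
      omega
    have hd := disp_pow F g z m0
    have hd2 : m0 * ρ z (g • z) ≤ m0 * (200 * δ) := Nat.mul_le_mul_left _ hz
    have t := F.geo.tri (g ^ m0 • z) z (k • g ^ m0 • z)
    have s := F.geo.symm (g ^ m0 • z) z
    have hk1 : k = 1 := eq_one_of_far hk hfar (by omega)
    rw [hk1, one_smul] at h
    have hzV : z ∉ F.V := by
      intro hzV
      have := hA z hzV
      rw [od_self] at this
      omega
    rcases H.A1 z g hzV hz h with h1 | ⟨c, hc, hfix⟩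
    · rw [h1]; exact Subgroup.one_mem _
    · exact H.pow_mem hc (Subgroup.one_mem _) (by rw [one_mul]; exact hfix)

/-- (T)' -/
theorem dich' (H : StepHyp F n m0 R1 B) [Nonempty Z] (g : G ⧸ KA F) :
    g ^ n = 1 ∨ (IMet.ofGeod (isGeod_qd (F := F))).Lox (m0 : ℤ) g := by
  haveI : Nonempty (QZ F) := ⟨qmk F (Classical.arbitrary Z)⟩
  have hδ : (1 : ℤ) ≤ (δ : ℤ) := by exact_mod_cast F.dpos
  rcases tglob (M := IMet.ofGeod (isGeod_qd (F := F))) hδ ((IMet.inv_ofGeod _).2 qd_inv)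
    ((IMet.ofGeod_hyp _).2 (hyp_qd H.num4)) g m0 H.m0pos with h | ⟨z', h1, h2⟩
  · exact Or.inr h
  · left
    simp only [IMet.ofGeod_d] at h1 h2
    obtain ⟨z, rfl⟩ := qmk_surj z'
    obtain ⟨g0, rfl⟩ := QuotientGroup.mk_surjective g
    rw [mk_smul_qmk, qd_mk] at h1
    obtain ⟨g1, e1, h3⟩ := lift_at z g0 (b := 200 * δ) (by exact_mod_cast h1)
    rw [← e1] at h2 ⊢
    have h4 : qd F (qmk F z) ((QuotientGroup.mk g1 : G ⧸ KA F) ^ m0 • qmk F z) =
        od F z (g1 ^ m0 • z) := by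
      rw [← QuotientGroup.mk_pow, mk_smul_qmk, qd_mk]
    rw [h4] at h2
    obtain ⟨k, hk, h5⟩ := od_spec (F := F) z (g1 ^ m0 • z)
    have h6 := H.tloc h3 hk (by rw [h5]; exact_mod_cast h2)
    rw [← QuotientGroup.mk_pow, QuotientGroup.eq_one_iff]
    exact h6

end StepHyp

end Burn
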