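import Pool.Agent.W_MP_3ab0ed_h82.Stab
import Pool.Agent.W_MP_3ab0ed_h82.TLoc
import Pool.Agent.W_MP_3ab0ed_h43.P4E

/-!
MP_3ab0ed_al, P4 (row 77), section 7: torsion of the quotient.
-/

namespace Burn

open RotFam

namespace StepHyp

variable {G Z Γ : Type} [Group G] [MulAction G Z] [MulAction G Γ] {ρ : Z → Z → ℕ}
  {δ S Th T : ℕ} {F : RotFam G Z Γ ρ δ S Th T} {n m0 R1 B : ℕ}

/-- (E)' : section 7 of row 77 -/
theorem tor' (H : StepHyp F n m0 R1 B) [Nonempty Z] (t h : G ⧸ KA F) (ht : t ≠ 1)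
    (htn : t ^ n = 1) (hc : Commute t h) : h ^ n = 1 := by
  have n1 := H.num1
  have n3 := H.num3
  have hd := F.dpos
  refine h43_E (R1 := R1) H.prime.ne_zero H.num4 (by omega) (by omega) ?_ H.A3 H.tor H.cyc
    (m0 := (m0 : ℤ)) H.dich' t h ht htn hc
  intro c hcV g hg
  obtain ⟨a, ha, han⟩ := H.A4 c hcV
  obtain ⟨i, hi⟩ := Subgroup.mem_zpowers_iff.1 ((ha g).1 hg)
  have e : g ^ n = (a ^ n) ^ i := by
    rw [← hi, ← zpow_natCast, ← zpow_mul, ← zpow_natCast, ← zpow_mul, mul_comm]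
  rw [e]
  exact Subgroup.zpow_mem _ han i

end StepHyp

end Burn
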