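import Pool.Agent.W_MP_3ab0ed_h82.SStep
import Pool.Agent.W_MP_3ab0ed_h82.EStep

/-!
MP_3ab0ed_al, P4 (row 77): the quotient is in the class.
-/

namespace Burn

open RotFam

namespace StepHyp

variable {G Z Γ : Type} [Group G] [MulAction G Z] [MulAction G Γ] {ρ : Z → Z → ℕ}
  {δ S Th T : ℕ} {F : RotFam G Z Γ ρ δ S Th T} {n m0 R1 B : ℕ}

/-- **The quotient is in the class.** -/
theorem cls (H : StepHyp F n m0 R1 B) [Nonempty Z] :
    Cls n (δ : ℤ) (B : ℤ) (m0 : ℤ) (G ⧸ KA F) (IMet.ofGeod (isGeod_qd (F := F))) where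
  inv := (IMet.inv_ofGeod _).2 qd_inv
  hyp := (IMet.ofGeod_hyp _).2 (hyp_qd H.num4)
  dich := H.dich'
  tor := H.tor'
  acy := by
    intro g h x y h1 h2 h3 h4 h5
    simp only [IMet.ofGeod_d] at h1 h2 h3 h4 h5
    exact H.acy' g h x y (by exact_mod_cast h1) (by exact_mod_cast h2) (by exact_mod_cast h3)
      (by exact_mod_cast h4) (by exact_mod_cast h5)

end StepHyp

end Burn
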