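import Pool.Agent.W_MP_3ab0ed_h82.Cls
import Pool.Agent.W_MP_3ab0ed_burn.Family

/-!
MP_3ab0ed_al, P4 (row 77): the package `Up` from the class, and the group level fields of `StepHyp`.
-/

namespace Burn

theorem Up.of_cls {n δ B q : ℕ} {G V : Type} [Group G] [MulAction G V] {M : IMet V} [hV : Nonempty V]
    (hp : n.Prime) (hodd : Odd n) (hδ : 1 ≤ δ) (hq : 1 ≤ q)
    (H : Cls n (δ : ℤ) (B : ℤ) (q : ℤ) G M) : Up n δ B q G V M where
  ne := hV
  inv := H.inv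
  hyp := H.hyp
  hδ := hδ
  hq := hq
  hn := hp.ne_zero
  T := H.dich
  cyc g hg := H.cyc hp.ne_zero (by exact_mod_cast hδ) (by exact_mod_cast hq) hg
  noinv u v hu := H.no_inv hodd (by exact_mod_cast hδ) (by exact_mod_cast hq) hu
  lc4 R hR g h x y h1 h2 h3 h4 h5 :=
    H.lc4 hp hodd (by exact_mod_cast hδ) (by exact_mod_cast hq) (by positivity) hR h1 h2 h3 h4 h5

namespace Cls

variable {n δ B q : ℕ} {G V : Type} [Group G] [MulAction G V] {M : IMet V} [Nonempty V]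

theorem dich5 (hp : n.Prime) (H : Cls n (δ : ℤ) (B : ℤ) (q : ℤ) G M) (g : G) :
    g ^ n = 1 ∨ ∀ j : ℕ, j ≠ 0 → g ^ j ≠ 1 := by
  rcases H.dich g with h | h
  · exact Or.inl h
  · exact Or.inr fun j hj => h.pow_ne hj

theorem cyc5 (hp : n.Prime) (hδ : 1 ≤ δ) (hq : 1 ≤ q) (H : Cls n (δ : ℤ) (B : ℤ) (q : ℤ) G M)
    (g : G) (hg : g ^ n ≠ 1) : ∃ w : G, ∀ u : G, Commute u g ↔ u ∈ Subgroup.zpowers w :=
  H.cyc hp.ne_zero (by exact_mod_cast hδ) (by exact_mod_cast hq) ((H.lox_iff hp.ne_zero).2 hg)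

end Cls

end Burn
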