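import Pool.Agent.W_MP_3ab0ed_h30.UpL

/-!
MP_3ab0ed_al, piece P4 (row 77), section 3: L1, L2, L3 (proofs by helper30).
-/

namespace Burn

open RotFam

section L

variable {G Z Γ : Type} [Group G] [MulAction G Z] [MulAction G Γ] {ρ : Z → Z → ℕ}
  {δ S Th T : ℕ} {F : RotFam G Z Γ ρ δ S Th T}

/-- L1. -/
theorem near_apex {c z : Z} (hc : c ∈ F.V) {g : G} {R1 b : ℕ} (h1 : od F z c ≤ R1)
    (h2 : od F z (g • z) ≤ b) (h3 : 2 * R1 + b < S) : ∃ k ∈ KA F, (k * g) • c = c :=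
  upL1 hc h1 h2 h3

/-- L2. -/
theorem eq_one_of_far {y : Z} {k : G} {R1 : ℕ} (hk : k ∈ KA F) (hfar : ∀ c ∈ F.V, R1 < ρ y c)
    (h : ρ y (k • y) ≤ 2 * R1) : k = 1 :=
  upL2 hfar hk h

/-- L3. -/
theorem lift_eq_one {x y : Z} {g k : G} {R1 b : ℕ} (hk : k ∈ KA F)
    (hfar : ∀ z, ρ x z + ρ z y = ρ x y → ∀ c ∈ F.V, R1 < ρ z c) (hb : b ≤ R1) (hT : 5 * Th ≤ T)
    (hx : ρ x (g • x) ≤ b) (hy : ρ y (k • g • y) ≤ b) : k = 1 :=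
  upL3 hfar hb hT hk hx hy

end L

end Burn
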