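import Pool.Agent.W_MP_3ab0ed_h82.StepHyp
import Pool.Agent.W_MP_3ab0ed_h82.Up

/-!
MP_3ab0ed_al, P4 (row 77): powers of elements fixing an apex.
-/

namespace Burn

open RotFam

namespace StepHyp

variable {G Z Γ : Type} [Group G] [MulAction G Z] [MulAction G Γ] {ρ : Z → Z → ℕ}
  {δ S Th T : ℕ} {F : RotFam G Z Γ ρ δ S Th T} {n m0 R1 B : ℕ}

/-- an element whose translate by `K` fixes an apex has its `n`-th power in `K` -/
theorem pow_mem (H : StepHyp F n m0 R1 B) {c : Z} (hc : c ∈ F.V) {g k : G} (hk : k ∈ KA F)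
    (h : (k * g) • c = c) : g ^ n ∈ KA F := by
  obtain ⟨a, ha, han⟩ := H.A4 c hc
  obtain ⟨i, hi⟩ := Subgroup.mem_zpowers_iff.1 ((ha _).1 h)
  have h1 : (k * g) ^ n ∈ KA F := by
    rw [← hi, ← zpow_natCast, ← zpow_mul, mul_comm, zpow_mul, zpow_natCast]
    exact Subgroup.zpow_mem _ han i
  have e1 : (QuotientGroup.mk k : G ⧸ KA F) = 1 := (QuotientGroup.eq_one_iff k).2 hk
  rw [← QuotientGroup.eq_one_iff] at h1 ⊢
  rw [QuotientGroup.mk_pow, QuotientGroup.mk_mul, e1, one_mul] at h1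
  rw [QuotientGroup.mk_pow]
  exact h1

end StepHyp

end Burn
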