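import Pool.Agent.W_MP_3ab0ed_h82.PowMem
import Pool.Agent.W_MP_3ab0ed_h30.SStep

/-!
MP_3ab0ed_al, P4 (row 77), section 5: acylindricity of the quotient (proof by helper30).
-/

namespace Burn

open RotFam

namespace StepHyp

variable {G Z Γ : Type} [Group G] [MulAction G Z] [MulAction G Γ] {ρ : Z → Z → ℕ}
  {δ S Th T : ℕ} {F : RotFam G Z Γ ρ δ S Th T} {n m0 R1 B : ℕ}

/-- (S)' : section 5 of row 77 -/
theorem acy' (H : StepHyp F n m0 R1 B) (g h : G ⧸ KA F) (x y : QZ F)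
    (h1 : qd F x (g • x) ≤ 1000 * δ) (h2 : qd F y (g • y) ≤ 1000 * δ)
    (h3 : qd F x (h • x) ≤ 1000 * δ) (h4 : qd F y (h • y) ≤ 1000 * δ) (h5 : B < qd F x y) :
    ∃ u : G ⧸ KA F, g ∈ Subgroup.zpowers u ∧ h ∈ Subgroup.zpowers u := by
  have hn1 := H.num1
  have hn3 := H.num3
  refine s_step (R1 := R1) H.A2 (fun c hc => ?_) (by omega) (by omega) H.num4 g h x y h1 h2 h3 h4 h5
  obtain ⟨a, ha, _⟩ := H.A4 c hc
  exact ⟨a, fun g hg => (ha g).1 hg⟩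

end StepHyp

end Burn
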