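import Pool.Agent.W_MP_3ab0ed_h82.PowMem
import Pool.Agent.W_MP_3ab0ed_h43.P4Up

/-!
MP_3ab0ed_al, P4 (row 77), section 6: stabilizers of two apices of the quotient (proof by helper43).
-/

namespace Burn

open RotFam

namespace StepHyp

variable {G Z Γ : Type} [Group G] [MulAction G Z] [MulAction G Γ] {ρ : Z → Z → ℕ}
  {δ S Th T : ℕ} {F : RotFam G Z Γ ρ δ S Th T} {n m0 R1 B : ℕ}

/-- L4 : section 6 of row 77 -/
theorem stab' (H : StepHyp F n m0 R1 B) {c c' : Z} (hc : c ∈ F.V) (hc' : c' ∈ F.V)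
    (hne : qmk F c ≠ qmk F c') {g : G} (h1 : qmk F (g • c) = qmk F c)
    (h2 : qmk F (g • c') = qmk F c') : g ∈ KA F :=
  h43_L4 H.num4 H.A3 hc hc' hne h1 h2

end StepHyp

end Burn
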