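import Pool.Agent.W_MP_3ab0ed_h82.QCls
import Pool.Agent.W_MP_3ab0ed_h82.OfCls
import Pool.Agent.W_MP_3ab0ed_h43.P4A3
import Pool.Agent.W_MP_3ab0ed_h72.StepFacts

/-!
MP_3ab0ed_al, P4 (row 77): the rotation family of the cone-off satisfies `StepHyp`.
-/

set_option linter.style.haveILetI false

namespace Burn

namespace Up

variable {n B q : ℕ} {G V : Type} [Group G] [MulAction G V] {M : IMet V}

/-- the facts A1 .. A5 for the rotation family of the cone-off -/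
theorem stepHyp (H : Up n Cone.dX B q G V M) (Hc : Cls n (Cone.dX : ℤ) (B : ℤ) (q : ℤ) G M)
    (hp : n.Prime) (hodd : Odd n) {N R T R1 : ℕ}
    (hN : 40 * Cone.dX + 3 + B + 20000 * Cone.dX ≤ N) (hR : Cone.depth ≤ R)
    (hT : T * (q * N) ≤ n) (hTh : 2 * ((12 * Cone.dX + 11) * 2 ^ R) ≤ T)
    (hT5 : 5 * ((12 * Cone.dX + 11) * 2 ^ R) ≤ T)
    (hR1 : 1000 * Cone.dX < R1) (hR2 : 2 * R1 + 1000 * Cone.dX + 2 * Cone.dX < 2 * R + 2)
    (hm : q * (200 * Cone.dX) + 15 * Cone.dX ≤ 2 * R1)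
    (hq : N * (15 * Cone.dX * 2 ^ (200 * Cone.dX + 15 * Cone.dX)) ≤ q)
    (hB : 1000 * Cone.dX + 1 + 20 * (1000 * Cone.dX * 2 ^ (1000 * Cone.dX)) ≤ B)
    (hbig : 2 * (q * N * (Cone.dX * 2 ^ (2 * Cone.dX + 1))) + 3 ≤ n) :
    letI := apAct (n := n) (δ := Cone.dX) (B := B) (q := q) H.inv
    letI := Cone.coneAct (R := R) (Yx_smul (n := n) (δ := Cone.dX) (B := B) (q := q) H.inv)
    StepHyp (rf H hN hR hT hTh) n q R1 B := by
  letI := apAct (n := n) (δ := Cone.dX) (B := B) (q := q) H.inv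
  letI := Cone.coneAct (R := R) (Yx_smul (n := n) (δ := Cone.dX) (B := B) (q := q) H.inv)
  haveI := H.ne
  have hδ := H.hδ
  obtain ⟨t, ht⟩ := hodd
  exact
    { prime := hp
      odd := ⟨t, ht⟩
      m0pos := H.hq
      num1 := hR2
      num2 := hm
      num3 := hR1
      num4 := hT5
      A1 := stepA1 H hN hR hT hTh (by omega) hq H.hq
      A2 := stepA2 H hN hR hT hTh (by omega) (by omega) hB
      A3 := h43_A3 H hp ht hN hR hT hTh (by omega)
      A4 := stepA4 H hN hR hT hTh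
      dich := Hc.dich5 hp
      tor := Hc.tor
      cyc := Hc.cyc5 hp H.hδ H.hq }

end Up

end Burn
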